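import Pool.Agent.U115.GE.Defs
import Pool.Agent.U115.TP.Bound

/-!
# Project GE, package BND: the classical bound of the rank and of `Ш[2]` by the two Selmer groups
-/

set_option autoImplicit false
set_option linter.style.haveILetI false

attribute [-instance] DivisionRing.toRatAlgebra

open NumberField IsDedekindDomain

namespace Pool.Agent.U796.GE

open Pool.Agent.U115.GE
open Pool.Agent.Y682
open Pool.Agent.TH841.NF.D (rk Sha)
open Pool.Agent.U115.TP (exists_sqf map_rat exists_hom cl cl_eq exists_frac lsol_aux LSol)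

open scoped Classical

/-- from the local image to the covering -/
theorem qs_of_S1 {F : Type} [Field F] {A B d z m : F} (hd : d ≠ 0) (hz : z ≠ 0)
    (hzm : d * z ^ 2 = m) (hm : S1 A B m) :
    ∃ N M e : F, (M ≠ 0 ∨ e ≠ 0) ∧ N ^ 2 = d * M ^ 4 + A * M ^ 2 * e ^ 2 + B / d * e ^ 4 := by
  rcases hm with h | h | ⟨h, y, hy⟩
  · refine ⟨z⁻¹, 1, 0, Or.inl one_ne_zero, ?_⟩
    have h1 : (z⁻¹) ^ 2 = d := by
      rw [inv_pow, ← one_div, div_eq_iff (pow_ne_zero 2 hz), hzm, h]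
    rw [h1]
    ring
  · refine ⟨z, 0, 1, Or.inr one_ne_zero, ?_⟩
    rw [← h, ← hzm]
    field_simp
    ring
  · refine ⟨y / (d * z), z, 1, Or.inl hz, ?_⟩
    rw [div_pow, hy, ← hzm]
    field_simp

theorem qs_int {F : Type} [Field F] {a b d : ℤ} {t z m : F} (hd : (d : F) ≠ 0) (ht : t ≠ 0)
    (hz : z ≠ 0) (hzm : (d : F) * t ^ 2 * z ^ 2 = m) (hm : S1 (a : F) (b : F) m) : Qs F a b d := by
  refine qs_of_S1 (A := (a : F)) (B := (b : F)) (m := m) (z := t * z) hd (mul_ne_zero ht hz) ?_ hm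
  rw [← hzm]
  ring

/-- the first conditions -/
theorem els_of_LL1 {a b d : ℤ} {c t : ℚ} (ht : t ≠ 0) (hc : c = d * t ^ 2) (hd : d ≠ 0)
    (h : LL1 (a : ℚ) (b : ℚ) c) : ELS a b d := by
  refine ⟨?_, fun p _ => ?_⟩
  · obtain ⟨v, Θ, hΘ⟩ := exists_real (Rat.castHom ℝ)
    obtain ⟨z, m, hz, hzm, hm⟩ := h.2 v
    refine qs_int (t := (t : ℝ)) (z := Θ z) (m := Θ m) (by exact_mod_cast hd)
      (by exact_mod_cast ht) ((map_ne_zero Θ).2 hz) ?_ ?_
    · rw [← hzm, map_mul, map_pow, hΘ, hc, Rat.coe_castHom]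
      push_cast
      ring
    · rcases hm with h2 | h2 | ⟨h2, y, hy⟩
      · exact Or.inl (by rw [h2, map_one])
      · refine Or.inr (Or.inl ?_)
        rw [h2, hΘ, Rat.coe_castHom]
        push_cast
        rfl
      · refine Or.inr (Or.inr ⟨(map_ne_zero Θ).2 h2, Θ y, ?_⟩)
        rw [← map_pow, hy]
        simp only [map_mul, map_add, map_pow, hΘ, Rat.coe_castHom]
        push_cast
        ring
  · obtain ⟨v, ⟨e⟩⟩ := exists_hom p
    obtain ⟨z, m, hz, hzm, hm⟩ := h.1 v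
    refine qs_int (t := (t : ℚ_[p])) (z := e z) (m := e m) (by exact_mod_cast hd)
      (by exact_mod_cast ht) ((map_ne_zero e).2 hz) ?_ ?_
    · rw [← hzm, map_mul, map_pow, map_rat, hc]
      push_cast
      ring
    · rcases hm with h2 | h2 | ⟨h2, y, hy⟩
      · exact Or.inl (by rw [h2, map_one])
      · refine Or.inr (Or.inl ?_)
        rw [h2, map_rat]
        push_cast
        rfl
      · refine Or.inr (Or.inr ⟨(map_ne_zero e).2 h2, e y, ?_⟩)
        rw [← map_pow, hy]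
        simp only [map_mul, map_add, map_pow, map_rat]
        push_cast
        ring

/-- the second conditions -/
theorem els_of_LL2 {a b d : ℤ} {c t : ℚ} (ht : t ≠ 0) (hc : c = d * t ^ 2) (hd : d ≠ 0)
    (h : LL2 (a : ℚ) (b : ℚ) c) : ELS (-2 * a) (a ^ 2 - 4 * b) d := by
  refine els_of_LL1 ht hc hd ⟨fun v => ?_, fun v => ?_⟩
  · obtain ⟨z, m, hz, hzm, hm⟩ := h.1 v
    refine ⟨z, m, hz, hzm, ?_⟩
    rcases hm with h2 | h2 | ⟨h2, y, hy⟩
    · exact Or.inl h2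
    · refine Or.inr (Or.inl ?_)
      rw [h2]
      push_cast
      simp only [map_ofNat]
    · refine Or.inr (Or.inr ⟨h2, y, ?_⟩)
      rw [hy]
      push_cast
      simp only [map_ofNat]
      ring
  · obtain ⟨z, m, hz, hzm, hm⟩ := h.2 v
    refine ⟨z, m, hz, hzm, ?_⟩
    rcases hm with h2 | h2 | ⟨h2, y, hy⟩
    · exact Or.inl h2
    · refine Or.inr (Or.inl ?_)
      rw [h2]
      push_cast
      simp only [map_ofNat]
    · refine Or.inr (Or.inr ⟨h2, y, ?_⟩)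
      rw [hy]
      push_cast
      simp only [map_ofNat]
      ring

/-- a point of the covering gives a primitive integral one -/
theorem lsol_of_qs {a b d : ℤ} {p : ℕ} [hp : Fact p.Prime] (hd : Squarefree d)
    (h : Qs ℚ_[p] a b d) : LSol a b d p := by
  have hu : ¬ (p : ℤ_[p]) ∣ 1 := fun h => (PadicInt.prime_p (p := p)).not_isUnit (isUnit_of_dvd_one h)
  have hd0 : (d : ℚ_[p]) ≠ 0 := by exact_mod_cast hd.ne_zero
  obtain ⟨N, M, e, hMe, h⟩ := h
  have h' : (d : ℚ_[p]) * N ^ 2 = (d : ℚ_[p]) ^ 2 * M ^ 4 + a * d * M ^ 2 * e ^ 2 + b * e ^ 4 := by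
    rw [h]
    field_simp
  by_cases he : e = 0
  · have hM : M ≠ 0 := hMe.resolve_right (fun h => h he)
    refine lsol_aux (A := a) (B := b) hd (w := 1) (e := 0) (fun h => hu h.1) (N := N / M ^ 2) ?_
    rw [he] at h'
    rw [div_pow]
    push_cast
    field_simp
    linear_combination h'
  · obtain ⟨w, e', he', hwe, hnd⟩ := exists_frac (M / e)
    have he0 : (e' : ℚ_[p]) ≠ 0 := by
      intro h
      exact he' (Subtype.coe_injective h)
    have hM : M = e * w / e' := by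
      rw [mul_div_assoc, ← hwe]
      field_simp
    refine lsol_aux (A := a) (B := b) hd (w := w) (e := e') hnd
      (N := N * (e' : ℚ_[p]) ^ 2 / e ^ 2) ?_
    rw [hM] at h'
    rw [div_pow, mul_pow]
    field_simp at h' ⊢
    linear_combination h'

/-- the Selmer group is finite -/
theorem selSet_finite {a b : ℤ} (hb : b ≠ 0) : (SelSet a b).Finite := by
  refine (Set.finite_Icc (-(b.natAbs : ℤ)) b.natAbs).subset ?_
  rintro d ⟨hd, hels⟩
  have h1 : d.natAbs ∣ b.natAbs := by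
    have hsf : Squarefree d.natAbs := Int.squarefree_natAbs.2 hd
    rw [← Nat.prod_primeFactors_of_squarefree hsf]
    refine Finset.prod_primes_dvd _ (fun p hp => (Nat.prime_of_mem_primeFactors hp).prime)
      fun p hp => ?_
    have hpp := Nat.prime_of_mem_primeFactors hp
    have : Fact p.Prime := ⟨hpp⟩
    have hpd : (p : ℤ) ∣ d := Int.natCast_dvd.2 (Nat.dvd_of_mem_primeFactors hp)
    exact Int.natCast_dvd.1 ((lsol_of_qs hd (hels.2 p)).dvdB hd hpd)
  have h2 : d.natAbs ≤ b.natAbs := Nat.le_of_dvd (Int.natAbs_pos.2 hb) h1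
  rw [Set.mem_Icc]
  omega

theorem one_mem (a b : ℤ) : (1 : ℤ) ∈ SelSet a b := by
  refine ⟨squarefree_one, ⟨1, 1, 0, Or.inl one_ne_zero, ?_⟩, fun p _ =>
    ⟨1, 1, 0, Or.inl one_ne_zero, ?_⟩⟩
  · push_cast; ring
  · push_cast; ring

/-- the class of an integer -/
noncomputable def cz (d : ℤ) : ℚˣ ⧸ Sq ℚ := if h : (d : ℚ) ≠ 0 then cl d h else 1

/-- GE-SHA -/
theorem t_BND : S_BND := by
  intro a b hb hD
  have hB : (b : ℚ) ≠ 0 := by exact_mod_cast hb
  have hDD : (a : ℚ) ^ 2 - 4 * (b : ℚ) ≠ 0 := by exact_mod_cast hD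
  have hT := wc_isT hB hDD
  set U : Set (ℚˣ ⧸ Sq ℚ) := cz '' (SelSet a b) with hU
  set V : Set (ℚˣ ⧸ Sq ℚ) := cz '' (SelSet (-2 * a) (a ^ 2 - 4 * b)) with hV
  have hSf := selSet_finite (a := a) hb
  have hSf' := selSet_finite (a := -2 * a) hD
  have hUf : Finite U := (hSf.image _).to_subtype
  have hVf : Finite V := (hSf'.image _).to_subtype
  have hUc : Nat.card U ≤ sel a b := by
    rw [Nat.card_coe_set_eq]
    exact Set.ncard_image_le hSf
  have hVc : Nat.card V ≤ sel (-2 * a) (a ^ 2 - 4 * b) := by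
    rw [Nat.card_coe_set_eq]
    exact Set.ncard_image_le hSf'
  have h1V : (1 : ℚˣ ⧸ Sq ℚ) ∈ V := by
    refine ⟨1, one_mem _ _, ?_⟩
    have h0 := cl_eq (b := 1) (d := 1) (t := 1) one_ne_zero (by push_cast; norm_num) (by norm_num)
    unfold cz
    rw [dif_pos (by norm_num : ((1 : ℤ) : ℚ) ≠ 0), ← h0]
    rfl
  have H1 : ∀ c : ℚˣ, LL1 (a : ℚ) (b : ℚ) (c : ℚ) → (c : ℚˣ ⧸ Sq ℚ) ∈ U := by
    intro c hc
    obtain ⟨d, t, hd, ht, hbd⟩ := exists_sqf (c : ℚ) c.ne_zero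
    have hd0 : (d : ℚ) ≠ 0 := by exact_mod_cast hd.ne_zero
    refine ⟨d, ⟨hd, els_of_LL1 ht hbd hd.ne_zero hc⟩, ?_⟩
    unfold cz
    rw [dif_pos hd0, cl_eq ht hbd hd0]
  have H2 : ∀ c : ℚˣ, LL2 (a : ℚ) (b : ℚ) (c : ℚ) → (c : ℚˣ ⧸ Sq ℚ) ∈ V := by
    intro c hc
    obtain ⟨d, t, hd, ht, hbd⟩ := exists_sqf (c : ℚ) c.ne_zero
    have hd0 : (d : ℚ) ≠ 0 := by exact_mod_cast hd.ne_zero
    refine ⟨d, ⟨hd, els_of_LL2 ht hbd hd.ne_zero hc⟩, ?_⟩
    unfold cz
    rw [dif_pos hd0, cl_eq ht hbd hd0]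
  obtain ⟨hf, hc⟩ := Zc_card (U := U) (V := V) hT h1V H1 H2
  obtain ⟨hf', hl⟩ := Zc_lower hT
  exact ⟨hf', hl.trans (hc.trans (Nat.mul_le_mul hUc hVc))⟩

end Pool.Agent.U796.GE
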